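import Mathlib

namespace Pool.Agent.Results.MP_5c2e51_co.Yes

variable {V S : Type}

/-- A rooted phylogenetic tree with leaf set `L`, given by its clusters: a vertex `v` is the set of
leaves below it, and `v ⪯ u` is inclusion. -/
structure IsTree (L : Set V) (T : Set (Set V)) : Prop where
  root : L ∈ T
  leaf : ∀ x ∈ L, {x} ∈ T
  sub : ∀ C ∈ T, C.Nonempty ∧ C ⊆ L
  lam : ∀ C ∈ T, ∀ D ∈ T, C ⊆ D ∨ D ⊆ C ∨ Disjoint C D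

def lca (T : Set (Set V)) (x y : V) : Set V := ⋂₀ {C ∈ T | x ∈ C ∧ y ∈ C}

/-- `(T, σ, u)` explains the coloured digraph induced by `G` on `L`. -/
def Explains (σ : V → S) (G : V → V → Prop) (L : Set V) (T : Set (Set V)) (u : V → S → Set V) :
    Prop :=
  IsTree L T ∧ (∀ x ∈ L, ∀ s, s ≠ σ x → u x s ∈ T ∧ x ∈ u x s) ∧ ∀ x ∈ L, ∀ y ∈ L, G x y ↔
    σ x ≠ σ y ∧ (¬ ∃ y' ∈ L, σ y' = σ y ∧ lca T x y' ⊂ lca T x y) ∧ lca T x y ⊆ u x (σ y)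

/-- `T'` arises from the restriction of `T` to `L'` by contracting inner edges. -/
def Displays (L : Set V) (T : Set (Set V)) (L' : Set V) (T' : Set (Set V)) : Prop :=
  L' ⊆ L ∧ ∀ C' ∈ T', ∃ C ∈ T, C' = C ∩ L'

/-- `T` is a least resolved tree of the best match graph induced by `G` on `W`. -/
def IsBmgLRT (σ : V → S) (G : V → V → Prop) (W : Set V) (T : Set (Set V)) : Prop :=
  Explains σ G W T (fun _ _ => W) ∧
    ∀ T', Displays W T W T' → T' ≠ T → ¬ Explains σ G W T' fun _ _ => W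

def N (σ : V → S) (F : Set (Set V)) (x y : V) : Prop :=
  ∀ C ∈ F, x ∈ C → ∀ y' ∈ C, σ y' = σ y → y ∈ C

def Lam (F : Set (Set V)) : Prop := ∀ C ∈ F, ∀ D ∈ F, ∀ x ∈ C, x ∈ D → C ⊆ D ∨ D ⊆ C

lemma least [Finite V] {F : Set (Set V)} (h : Lam F) (p : Set V → Prop) {x : V} {W : Set V}
    (hW : W ∈ F) (hx : x ∈ W) (hp : p W) :
    ∃ E ∈ F, x ∈ E ∧ p E ∧ ∀ C ∈ F, x ∈ C → p C → E ⊆ C := by
  obtain ⟨E, ⟨h1, h2, h3⟩, h4⟩ := (Set.toFinite {C ∈ F | x ∈ C ∧ p C}).exists_minimal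
    ⟨W, hW, hx, hp⟩
  exact ⟨E, h1, h2, h3, fun C a b c => (h E h1 C a x h2 b).elim id (h4 ⟨a, b, c⟩)⟩

lemma IsTree.lam' {L : Set V} {T : Set (Set V)} (h : IsTree L T) : Lam T :=
  fun C a D b _ c d => (h.lam C a D b).imp_right fun e => e.resolve_right fun e =>
    Set.disjoint_left.1 e c d

lemma lca_spec [Finite V] {L : Set V} {T : Set (Set V)} (h : IsTree L T) {x y : V} (hx : x ∈ L)
    (hy : y ∈ L) : lca T x y ∈ T ∧ x ∈ lca T x y ∧ y ∈ lca T x y ∧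
      ∀ C ∈ T, x ∈ C → y ∈ C → lca T x y ⊆ C := by
  obtain ⟨E, h1, h2, h3, h4⟩ := least h.lam' (y ∈ ·) h.root hx hy
  rw [show lca T x y = E from (Set.sInter_subset_of_mem (by exact ⟨h1, h2, h3⟩)).antisymm
    (Set.subset_sInter fun C a => h4 C a.1 a.2.1 a.2.2)]
  exact ⟨h1, h2, h3, h4⟩

lemma best [Finite V] (σ : V → S) {L : Set V} {T : Set (Set V)} (h : IsTree L T) {x y : V}
    (hx : x ∈ L) (hy : y ∈ L) :
    (¬ ∃ y' ∈ L, σ y' = σ y ∧ lca T x y' ⊂ lca T x y) ↔ N σ T x y := by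
  obtain ⟨h1, h2, h3, h4⟩ := lca_spec h hx hy
  refine ⟨fun n C a b y' c d => by_contra fun e => n ⟨y', (h.sub C a).2 c, d, ?_⟩, ?_⟩
  · exact ((lca_spec h hx ((h.sub C a).2 c)).2.2.2 C a b c).trans_ssubset
      ⟨(h.lam' _ h1 C a x h2 b).resolve_left fun k => e (k h3), fun k => e (k h3)⟩
  · rintro n ⟨y', a, b, c⟩
    obtain ⟨k1, k2, k3, -⟩ := lca_spec h hx a
    exact c.2 (h4 _ k1 k2 (n _ k1 k2 _ k3 b))

lemma near [Finite V] (σ : V → S) {F : Set (Set V)} (h : Lam F) {W : Set V} (hW : W ∈ F) {z b : V}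
    (hz : z ∈ W) (hb : b ∈ W) : ∃ E ∈ F, z ∈ E ∧ (∃ y ∈ E, σ y = σ b) ∧
      (∀ C ∈ F, z ∈ C → (∃ y ∈ C, σ y = σ b) → E ⊆ C) ∧ ∀ y ∈ E, σ y = σ b → N σ F z y := by
  obtain ⟨E, h1, h2, h3, h4⟩ := least h (fun C => ∃ y ∈ C, σ y = σ b) hW hz ⟨b, hb, rfl⟩
  exact ⟨E, h1, h2, h3, h4, fun y a e C c d y' f g => h4 C c d ⟨y', f, g.trans e⟩ a⟩

lemma key [Finite V] (σ : V → S) {F F' : Set (Set V)} (h : Lam F) (h' : Lam F') {W D : Set V}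
    (hW : W ∈ F) (hW' : W ∈ F') (s : ∀ C ∈ F, C ⊆ W) (s' : ∀ C ∈ F', C ⊆ W)
    (e : ∀ x ∈ W, ∀ y ∈ W, σ x ≠ σ y → (N σ F x y ↔ N σ F' x y)) (hD : D ∈ F) {a c : V}
    (ha : a ∈ W) (hc : c ∈ W) (n : σ a ≠ σ c) (h1 : N σ (F \ {D}) a c) (h2 : ¬ N σ F a c) :
    D ∈ F' := by
  obtain ⟨aD, b, bD, bc, cD⟩ : a ∈ D ∧ ∃ b ∈ D, σ b = σ c ∧ c ∉ D := by
    simp only [N, not_forall] at h2
    obtain ⟨C, k1, k2, y, k3, k4, k5⟩ := h2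
    obtain rfl : C = D := by_contra fun k => k5 (h1 C ⟨k1, k⟩ k2 y k3 k4)
    exact ⟨k2, y, k3, k4, k5⟩
  have k1 : ∀ y ∈ D, σ y = σ c → N σ F a y := fun y hy yc C k1 k2 y' k3 k4 => by
    by_cases k : C = D
    · exact k ▸ hy
    · exact (h C k1 D hD a k2 aD).elim (fun j => (cD (j (h1 C ⟨k1, k⟩ k2 y' k3
        (k4.trans yc)))).elim) fun j => j hy
  obtain ⟨M, m1, m2, ⟨y0, m3, m3'⟩, -, m5⟩ := near σ h' hW' ha hc
  obtain ⟨E, ⟨e1, e2, e3⟩, e4⟩ := (Set.toFinite {C ∈ F' | M ⊆ C ∧ ∀ y ∈ C, σ y = σ c → y ∈ D}).exists_maximal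
    ⟨M, m1, subset_rfl, fun y hy yc => (e a ha y (s' _ m1 hy) (yc ▸ n)).2 (m5 y hy yc) D hD aD b bD
      (bc.trans yc.symm)⟩
  have k2 : ∀ y ∈ D, σ y = σ c → y ∈ E := fun y hy yc =>
    e2 ((e a ha y (s _ hD hy) (yc ▸ n)).1 (k1 y hy yc) M m1 m2 y0 m3 (m3'.trans yc.symm))
  convert e1 using 1
  ext z
  by_cases zc : σ z = σ c
  · exact ⟨fun k => k2 z k zc, fun k => e3 z k zc⟩
  refine ⟨fun hz => ?_, fun hz => ?_⟩
  · obtain ⟨K, j1, j2, ⟨y, j3, j4⟩, -, j5⟩ := near σ h' hW' (s _ hD hz) hc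
    have : ∀ y ∈ K, σ y = σ c → y ∈ D := fun y hy yc => (e z (s _ hD hz) y (s' _ j1 hy)
      (yc ▸ zc)).2 (j5 y hy yc) D hD hz b bD (bc.trans yc.symm)
    exact (h' K j1 E e1 y j3 (k2 y (this y j3 j4) j4)).elim (fun j => j j2)
      fun j => e4 ⟨j1, e2.trans j, this⟩ j j2
  · obtain ⟨K, j1, j2, ⟨y, j3, j4⟩, -, j5⟩ := near σ h hW (s' _ e1 hz) hc
    have : ∀ y ∈ K, σ y = σ c → y ∈ D := fun y hy yc => e3 y ((e z (s' _ e1 hz) y (s _ j1 hy)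
      (yc ▸ zc)).1 (j5 y hy yc) E e1 hz b (k2 b bD bc) (bc.trans yc.symm)) yc
    refine (h K j1 D hD y j3 (this y j3 j4)).elim (fun j => j j2) fun j => ?_
    by_cases k : K = D
    · exact k ▸ j2
    · exact (cD (this c (h1 K ⟨j1, k⟩ (j aD) b (j bD) bc) rfl)).elim

theorem result {V S : Type} [Finite V] (σ : V → S) (G : V → V → Prop) (L W : Set V)
    (T TW : Set (Set V)) (u : V → S → Set V) (hW : W ⊆ L) (hT : Explains σ G L T u)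
    (hTW : IsBmgLRT σ G W TW) : Displays L T W TW := by
  obtain ⟨t, hu, hG⟩ := hT
  obtain ⟨⟨t', -, hG'⟩, lr⟩ := hTW
  have g : ∀ {F}, IsTree W F → ∀ x ∈ W, ∀ y ∈ W, (σ x ≠ σ y ∧ (¬ ∃ y' ∈ W, σ y' = σ y ∧
      lca F x y' ⊂ lca F x y) ∧ lca F x y ⊆ W ↔ σ x ≠ σ y ∧ N σ F x y) := fun f x hx y hy => by
    rw [best σ f hx hy, and_iff_left (f.sub _ (lca_spec f hx hy).1).2]
  refine ⟨hW, fun D hD => ?_⟩
  by_cases d1 : D = W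
  · exact ⟨L, t.root, d1.trans (Set.inter_eq_right.2 hW).symm⟩
  by_cases d2 : ∃ x ∈ W, D = {x}
  · obtain ⟨x, hx, rfl⟩ := d2
    exact ⟨{x}, t.leaf x (hW hx), (Set.inter_eq_left.2 (by simpa)).symm⟩
  have t2 : IsTree W (TW \ {D}) := ⟨⟨t'.root, Ne.symm d1⟩,
    fun x hx => ⟨t'.leaf x hx, fun e => d2 ⟨x, hx, Eq.symm e⟩⟩, fun C a => t'.sub C a.1,
    fun C a E b => t'.lam C a.1 E b.1⟩
  have := lr (TW \ {D}) ⟨subset_rfl, fun C a => ⟨C, a.1, (Set.inter_eq_left.2 (t2.sub C a).2).symm⟩⟩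
    fun e => (e.symm ▸ hD : D ∈ TW \ {D}).2 rfl
  obtain ⟨a, ha, c, hc, n, h1, h2⟩ : ∃ a ∈ W, ∃ c ∈ W, σ a ≠ σ c ∧ N σ (TW \ {D}) a c ∧
      ¬ N σ TW a c := by
    by_contra k
    push Not at k
    refine this ⟨t2, fun x hx _ _ => ⟨t2.root, hx⟩, fun x hx y hy => ?_⟩
    rw [hG' x hx y hy, g t' x hx y hy, g t2 x hx y hy]
    exact and_congr_right fun n => ⟨fun e C a => e C a.1, k x hx y hy n⟩
  obtain ⟨C, k1, k2⟩ := key σ (F' := (· ∩ W) '' T) t'.lam' (by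
      rintro _ ⟨C, a, rfl⟩ _ ⟨E, b, rfl⟩ x c d
      exact (t.lam' C a E b x c.1 d.1).imp (Set.inter_subset_inter_left _)
        (Set.inter_subset_inter_left _)) t'.root ⟨L, t.root, Set.inter_eq_right.2 hW⟩
    (fun C a => (t'.sub C a).2) (by rintro _ ⟨C, a, rfl⟩; exact Set.inter_subset_right)
    (fun x hx y hy n => by
      have r : ∀ y ∈ W, G x y ↔ σ x ≠ σ y ∧ N σ T x y ∧ lca T x y ⊆ u x (σ y) := fun y hy => by
        rw [hG x (hW hx) y (hW hy), best σ t (hW hx) (hW hy)]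
      have r' : ∀ y ∈ W, G x y ↔ σ x ≠ σ y ∧ N σ TW x y := fun y hy => by
        rw [hG' x hx y hy, g t' x hx y hy]
      refine ⟨fun e => ?_, fun e => ((r' y hy).1 ((r y hy).2 ?_)).2⟩
      · rintro _ ⟨C, a, rfl⟩ b y' c d
        exact ⟨((r y hy).1 ((r' y hy).2 ⟨n, e⟩)).2.1 C a b.1 y' c.1 d, hy⟩
      obtain ⟨K, j1, j2, ⟨z, j3, j4⟩, -, j5⟩ := near σ t'.lam' t'.root hx hy
      have hz := (t'.sub K j1).2 j3
      obtain ⟨-, z1, z2⟩ := (r z hz).1 ((r' z hz).2 ⟨j4 ▸ n, j5 z j3 j4⟩)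
      obtain ⟨l1, l2, l3, l4⟩ := lca_spec t (hW hx) (hW hz)
      have yl := (e _ ⟨_, l1, rfl⟩ ⟨l2, hx⟩ z ⟨l3, hz⟩ j4).1
      exact ⟨n, fun C a b y' c d => l4 C a b (z1 C a b y' c (d.trans j4.symm)) yl,
        ((lca_spec t (hW hx) (hW hy)).2.2.2 _ l1 l2 yl).trans (j4 ▸ z2)⟩)
    hD ha hc n h1 h2
  exact ⟨C, k1, k2.symm⟩

end Pool.Agent.Results.MP_5c2e51_co.Yes
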